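import Pool.Agent.TH971.RF.C4
import Pool.Agent.W282.LF.Top
import Pool.Agent.W356.RW.Cnt

/-!
# MP_28d749_ag: Pink's conjecture for a positive proportion of all multisections of a power of an
arbitrary elliptic scheme

`B ⊆ P^N` is an arbitrary projective variety over the algebraic numbers of dimension at most `m`
(`DimLE`): the set of zeros of a family `G` of forms with algebraic coefficients. Let
`E : y² = x³ + a x + b` be an arbitrary (fixed) family of elliptic curves over `B`, where `a` and `b`
are forms of degree `4 e` and `6 e` with algebraic coefficients (`e = 0` is allowed: then `E` is a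
constant family), let `S` be the open subset of `B` where `4 a³ + 27 b² ≠ 0`, and `𝒜 = E^q` the
`q`-th fibre power of the elliptic scheme `E → S`, an abelian scheme over `S` of relative dimension
`q`.

For `R ≥ q` consider the `q`-tuples `(P_1, …, P_q)` of multisections of `E`, where `P_l` is given by
an equation
`F_{l,0} x^R + F_{l,1} x^(R-1) + … + F_{l,R} = 0` for the `x`-coordinate, `F_{l,h}` a form of degree
`d_l + 2 e h` in `y_0, …, y_N` with integral coefficients. They define a closed subset `𝒳` of `𝒜`,
the set of the points `(P_1, …, P_q)` in the fibres `𝒜_y = E_y^q`, `y ∈ S`, such that all `P_l` are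
on the `l`-th multisection; it has dimension `dim S` (for generic `F`, it is finite over `S`).

An algebraic subgroup `H` of codimension `ρ` of a fibre `𝒜_y = E_y^q` is given, up to finite index,
by a module of rank `ρ` of relations over the ring `End (E_y)`: the homomorphisms `E_y^q → E_y`
which vanish on the identity component of `H` form a submodule of `End (E_y)^q` of rank `ρ`, and
for `(P_1, …, P_q) ∈ H` all the points `∑ c_l (P_l)`, `c` in this module, are torsion points. The
rings of endomorphisms are described by `EndRing`, they contain all endomorphisms, also if `E_y` has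
complex multiplication. `InSubgroup P ρ` says that `P ∈ E_y^q` is in a subgroup of codimension at
least `ρ` in this sense, and `MeetsSubgroup f y ρ` that some point of `𝒳` over `y` is in such a
subgroup.

Theorem: for a positive proportion of all `q`-tuples of multisections with coefficients in a box, as
the box grows in all directions (the bounds for the coefficients of each form are arbitrary numbers
`≥ H₀`), every subvariety `W` of `S` such that all fibres over `W` (or over a dense open subset of
`W`) contain a point of `𝒳` which is in an algebraic subgroup of codimension at least `ρ` of the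
fibre, satisfies `dim W ≤ m - ρ`. In particular (`ρ = m + 1`) the set `𝒳 ∩ 𝒜^{[> m]}` is empty. If
`m = dim S = dim 𝒳`, this is the conclusion of Pink's conjecture for the components of `𝒳`, and the
set of the points of `𝒳` in subgroups of codimension `≥ ρ` contains no subvariety of dimension
larger than the expected dimension `m - ρ`, for all `ρ`.
-/

namespace Pool.Agent.Results.MP_28d749_ag.RandomMultisections

open MvPolynomial Pool.Agent.W282.ZP

/-- The value at `y` of the form of degree `d` with integral coefficients `c u`, the monomials of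
degree `d` in `y_0, …, y_N` being indexed by the multisets `u` of size `d`. -/
noncomputable def value {N d : ℕ} (c : Sym (Fin (N + 1)) d → ℤ) (y : Fin (N + 1) → ℂ) : ℂ :=
  ∑ u : Sym (Fin (N + 1)) d, (c u : ℂ) * ((u : Multiset (Fin (N + 1))).map y).prod

/-- `y` is a vector of homogeneous coordinates of a point of the projective algebraic set `B`
defined by the forms `G k`. -/
def OnB {N : ℕ} {κ : Type*} (G : κ → MvPolynomial (Fin (N + 1)) ℂ) (y : Fin (N + 1) → ℂ) : Prop :=
  y ≠ 0 ∧ ∀ k, eval y (G k) = 0

/-- The projective algebraic set defined by the forms `G k` has dimension at most `m`: it does not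
meet some linear subspace defined by `m + 1` linear forms. -/
def DimLE {N : ℕ} {κ : Type*} (G : κ → MvPolynomial (Fin (N + 1)) ℂ) (m : ℕ) : Prop :=
  ∃ t : Fin (m + 1) → Fin (N + 1) → ℂ, ∀ y, OnB G y → ∃ b, ∑ j, t b j * y j ≠ 0

/-- The curve `y² = x³ + a x + b` over the complex numbers. -/
abbrev curve (a b : ℂ) : WeierstrassCurve.Affine ℂ := ⟨0, 0, 0, a, b⟩

/-- The `x`-coordinate of a point of the curve (`0` for the origin). -/
def xCoord {a b : ℂ} : (curve a b).Point → ℂ
  | .zero => 0
  | .some x _ _ => x

/-- The map `φ` of the points of the curve `y² = x³ + a x + b` to itself is given on the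
`x`-coordinates by a rational function `u / w` with `u(x) / w(x) ~ x / c²` for `x → ∞`. -/
def ActsByRational {a b : ℂ} (c : ℂ) (φ : (curve a b).Point → (curve a b).Point) : Prop :=
  ∃ u w : Polynomial ℂ, w ≠ 0 ∧ u.natDegree = w.natDegree + 1 ∧
    w.leadingCoeff = c ^ 2 * u.leadingCoeff ∧
    ∀ P : (curve a b).Point, P ≠ 0 → w.eval (xCoord P) ≠ 0 →
      φ P ≠ 0 ∧ xCoord (φ P) * w.eval (xCoord P) = u.eval (xCoord P)

/-- A ring of endomorphisms of the curve `y² = x³ + a x + b`: a ring `O` of complex numbers which
acts on the group of points. For an endomorphism which is multiplication by `λ` on the tangent space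
at the origin the number `λ` is an integer or an imaginary quadratic integer, in particular it
satisfies an equation `λ² - T λ + N = 0` with integers `T, N`, and if it is not an integer, the
`x`-coordinate of the image of a point is a rational function `u / w` of the `x`-coordinate of the
point, with `u(x) / w(x) ~ x / λ²` for `x → ∞`. (The integers in `O` act by multiplication, as `act`
is a homomorphism of rings.) -/
structure EndRing (a b : ℂ) where
  /-- the ring -/
  O : Subring ℂ
  /-- its action on the points -/
  act : O →+* AddMonoid.End (curve a b).Point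
  quad : ∀ c : O, ∃ T N : ℤ, (c : ℂ) ^ 2 - T * c + N = 0
  rat : ∀ c : O, (∀ n : ℤ, (c : ℂ) ≠ n) → ActsByRational c (act c)

/-- The linear combination `∑ c_l (P_l)` of points with endomorphisms `c_l` as coefficients. -/
noncomputable def EndRing.comb {a b : ℂ} (E : EndRing a b) {q : ℕ} (c : Fin q → E.O)
    (P : Fin q → (curve a b).Point) : (curve a b).Point :=
  ∑ l, E.act (c l) (P l)

/-- The coefficients `c_1, …, c_q` are a relation between the points `P_1, …, P_q` up to torsion:
the point `∑ c_l (P_l)` is a torsion point. -/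
def EndRing.Relation {a b : ℂ} (E : EndRing a b) {q : ℕ} (c : Fin q → E.O)
    (P : Fin q → (curve a b).Point) : Prop :=
  ∃ t : ℕ, 0 < t ∧ t • E.comb c P = 0

/-- The point `(P_1, …, P_q)` of the `q`-th power of the curve is in an algebraic subgroup of
codimension at least `ρ`: the module of the relations between the `P_l` over some ring of
endomorphisms of the curve has rank at least `ρ`, it has `ρ` linearly independent elements. -/
def InSubgroup {a b : ℂ} {q : ℕ} (P : Fin q → (curve a b).Point) (ρ : ℕ) : Prop :=
  ∃ (E : EndRing a b) (c : Fin ρ → Fin q → E.O),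
    LinearIndependent ℂ (fun i l => (c i l : ℂ)) ∧ ∀ i, E.Relation (c i) P

/-- The coefficients of the equations of `q` multisections: the forms `F_{l,h}` of degree
`d_l + 2 e h`, for `h = 0, …, R`. -/
abbrev Multisections (N : ℕ) {q : ℕ} (e R : ℕ) (d : Fin q → ℕ) : Type :=
  ∀ (l : Fin q) (h : Fin (R + 1)), Sym (Fin (N + 1)) (d l + 2 * e * h) → ℤ

variable {N q e R : ℕ} {d : Fin q → ℕ}

/-- The multisections where the coefficients of `F_{l,h}` are bounded by `H l h`. -/
def box (N : ℕ) {q : ℕ} (e R : ℕ) (d : Fin q → ℕ) (H : Fin q → Fin (R + 1) → ℕ) :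
    Set (Multisections N e R d) :=
  {f | ∀ l h u, |f l h u| ≤ H l h}

/-- The point `P` of the fibre over `y` is on the `l`-th multisection:
`∑ F_{l,h}(y) x(P)^(R-h) = 0`, or `P` is the origin and `F_{l,0}(y) = 0`. -/
def OnMultisection (f : Multisections N e R d) (l : Fin q) (y : Fin (N + 1) → ℂ) {a b : ℂ}
    (P : (curve a b).Point) : Prop :=
  (P = 0 ∧ value (f l 0) y = 0) ∨
    (P ≠ 0 ∧ ∑ h : Fin (R + 1), value (f l h) y * xCoord P ^ (R - (h : ℕ)) = 0)

/-- Over the point `y` there are points `P_l` of the multisections such that the point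
`(P_1, …, P_q)` is in an algebraic subgroup of codimension at least `ρ` of the `q`-th power of the
curve. -/
def MeetsSubgroup (a b : MvPolynomial (Fin (N + 1)) ℂ) (f : Multisections N e R d)
    (y : Fin (N + 1) → ℂ) (ρ : ℕ) : Prop :=
  ∃ P : Fin q → (curve (eval y a) (eval y b)).Point,
    (∀ l, OnMultisection f l y (P l)) ∧ InSubgroup P ρ

/-- For every `ρ` the set of the points of `B` over which the multisections meet an algebraic
subgroup of codimension at least `ρ` of the fibre has dimension at most `m - ρ`: the transcendence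
degree of these points is at most `m - ρ`, and every irreducible closed subset `W` of the affine
cone over `B` such that all its points outside of some hypersurface `p = 0`, which does not contain
`W`, have this property, has dimension at most `m - ρ + 1`. -/
def NoUnlikely {κ : Type*} (G : κ → MvPolynomial (Fin (N + 1)) ℂ)
    (a b : MvPolynomial (Fin (N + 1)) ℂ) (m : ℕ) (f : Multisections N e R d) : Prop :=
  ∀ ρ : ℕ,
    (∀ y, OnB G y → MeetsSubgroup a b f y ρ → ∀ (j₀ : Fin (N + 1)) (T : Finset (Fin (N + 1))),
      AlgebraicIndependent ℚ (fun j : T => y j / y j₀) → T.card + ρ ≤ m) ∧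
    ∀ (W : Set (Fin (N + 1) → ℂ)) (p : MvPolynomial (Fin (N + 1)) ℂ),
      (∀ y ∈ W, eval y p ≠ 0 → OnB G y ∧ MeetsSubgroup a b f y ρ) → zcl W ⊆ W →
      (idealOf W).IsPrime → p ∉ idealOf W →
      zdim W + (ρ : Cardinal) ≤ ((m + 1 : ℕ) : Cardinal)

theorem xCoord_eq {a b : ℂ} (P : (curve a b).Point) :
    xCoord P = Pool.Agent.W466.EP.xx (A := a) (B := b) P := by
  rcases P with _ | ⟨x, y, h⟩
  · rfl
  · rfl

theorem onM_iff (f : Multisections N e R d) (l : Fin q) (y : Fin (N + 1) → ℂ) {a b : ℂ}
    (P : (curve a b).Point) : OnMultisection f l y P ↔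
      Pool.Agent.TH971.RF.OnM (f l) y (A := a) (B := b) P := by
  unfold OnMultisection Pool.Agent.TH971.RF.OnM
  rw [xCoord_eq]
  exact Iff.rfl

/-- the ring of endomorphisms as in the helper files -/
def toE {a b : ℂ} (E : EndRing a b) : Pool.Agent.TH971.RF.EndRing a b where
  O := E.O
  act := E.act
  quad := E.quad
  rat := by
    intro c hc
    obtain ⟨u, w, h1, h2, h3, h4⟩ := E.rat c hc
    refine ⟨u, w, h1, h2, h3, fun P hP hw => ?_⟩
    have e1 : xCoord (a := a) (b := b) P = Pool.Agent.W466.EP.xx (A := a) (B := b) P := xCoord_eq P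
    have hw' : w.eval (xCoord (a := a) (b := b) P) ≠ 0 := by rw [e1]; exact hw
    have h5 := h4 P hP hw'
    have e2 : xCoord (a := a) (b := b) (E.act c P) =
      Pool.Agent.W466.EP.xx (A := a) (B := b) (E.act c P) := xCoord_eq _
    rw [e1, e2] at h5
    exact h5

/-- the module of the relations -/
def relMod {a b : ℂ} (E : EndRing a b) {q : ℕ} (P : Fin q → (curve a b).Point) :
    Submodule E.O (Fin q → E.O) where
  carrier := {c | E.Relation c P}
  zero_mem' := ⟨1, one_pos, by simp [EndRing.comb]⟩
  add_mem' := by
    rintro c c' ⟨t, ht, h⟩ ⟨t', ht', h'⟩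
    refine ⟨t * t', Nat.mul_pos ht ht', ?_⟩
    have e1 : E.comb (c + c') P = E.comb c P + E.comb c' P := by
      unfold EndRing.comb
      rw [← Finset.sum_add_distrib]
      refine Finset.sum_congr rfl fun l _ => ?_
      rw [Pi.add_apply, map_add]
      rfl
    rw [e1, nsmul_add, mul_nsmul, h, mul_comm t t', mul_nsmul, h', nsmul_zero, nsmul_zero, add_zero]
  smul_mem' := by
    rintro r c ⟨t, ht, h⟩
    refine ⟨t, ht, ?_⟩
    have e1 : E.comb (r • c) P = E.act r (E.comb c P) := by
      simp [EndRing.comb, map_sum]
    rw [e1, ← map_nsmul, h, map_zero]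

theorem le_finrank {a b : ℂ} (E : EndRing a b) {q ρ : ℕ} (P : Fin q → (curve a b).Point)
    (c : Fin ρ → Fin q → E.O) (hc : LinearIndependent ℂ (fun i l => (c i l : ℂ)))
    (h : ∀ i, E.Relation (c i) P) : ρ ≤ Module.finrank E.O (relMod E P) := by
  have h1 : LinearIndependent E.O (fun i => (⟨c i, h i⟩ : relMod E P)) := by
    rw [Fintype.linearIndependent_iff] at hc ⊢
    intro g hg i
    have h2 : ∑ i, (g i : ℂ) • (fun l => (c i l : ℂ)) = 0 := by
      funext l
      have h3 := congrArg (fun v : relMod E P => (((v : Fin q → E.O) l : E.O) : ℂ)) hg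
      simpa [Finset.sum_apply] using h3
    exact_mod_cast hc _ h2 i
  have h2 := h1.cardinal_le_rank
  have h3 : Module.rank E.O (relMod E P) < Cardinal.aleph0 := by
    refine (Submodule.rank_le _).trans_lt ?_
    rw [rank_fun']
    exact Cardinal.natCast_lt_aleph0
  have h4 := Cardinal.toNat_le_toNat h2 h3
  simpa [Module.finrank] using h4

/-- Let `E : y² = x³ + a x + b` be any family of elliptic curves over any projective variety `B` of
dimension at most `m` over the algebraic numbers. For a positive proportion of all `q`-tuples of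
multisections of degree `R ≥ q` of `E` the points of `B` over which they meet an algebraic subgroup
of codimension at least `ρ` of the fibre of `E^q` form a set of dimension at most `m - ρ`; in
particular they meet no algebraic subgroup of codimension larger than `m` of a fibre. -/
theorem result {κ : Type*} (N q m e R : ℕ) (hR : 0 < R) (hqR : q ≤ R) (d : Fin q → ℕ)
    (G : κ → MvPolynomial (Fin (N + 1)) ℂ) (hhom : ∀ k, ∃ e, (G k).IsHomogeneous e)
    (halg : ∀ k s, IsAlgebraic ℚ ((G k).coeff s)) (hdim : DimLE G m)
    (a b : MvPolynomial (Fin (N + 1)) ℂ) (ha : a.IsHomogeneous (4 * e))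
    (hb : b.IsHomogeneous (6 * e)) (haalg : ∀ u, IsAlgebraic ℚ (a.coeff u))
    (hbalg : ∀ u, IsAlgebraic ℚ (b.coeff u)) :
    ∃ δ : ℝ, 0 < δ ∧ ∃ H₀ : ℕ, ∀ H : Fin q → Fin (R + 1) → ℕ, (∀ l h, H₀ ≤ H l h) →
      δ * ((box N e R d H).ncard : ℝ) ≤
        ((box N e R d H ∩ {f | NoUnlikely G a b m f}).ncard : ℝ) := by
  classical
  have h1 : ∃ t : Fin (m + 1) → Fin (N + 1) → ℂ, ∀ y : Fin (N + 1) → ℂ,
      (∀ k, eval y (G k) = 0) → (∀ b, ∑ j, t b j * y j = 0) → y = 0 := by
    obtain ⟨t, ht⟩ := hdim
    refine ⟨t, fun y hy hb => ?_⟩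
    by_contra h0
    obtain ⟨b, hb'⟩ := ht y ⟨h0, hy⟩
    exact hb' (hb b)
  obtain ⟨δ, hδ, H₀, h⟩ := Pool.Agent.TH971.RF.mainP Pool.Agent.W356.RW.cnt2 N q m e R hR hqR d G
    hhom halg h1 a b ha hb haalg hbalg
  refine ⟨δ, hδ, H₀, fun H hH => ?_⟩
  have hfin : (box N e R d H).Finite := Pool.Agent.TH971.RF.boxP_finite H
  refine (h H hH).trans (Nat.cast_le.2 (Set.ncard_le_ncard ?_ (hfin.subset fun f hf => hf.1)))
  rintro f ⟨hf1, hf2⟩
  refine ⟨hf1, fun ρ => ?_⟩
  have hkey : ∀ y, OnB G y → MeetsSubgroup a b f y ρ →
      (∀ (j0 : Fin (N + 1)) (T : Finset (Fin (N + 1))),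
        AlgebraicIndependent ℚ (fun j : T => y j / y j0) → T.card + ρ ≤ m) ∧
      ∀ T : Finset (Fin (N + 1)), AlgebraicIndependent ℚ (fun j : T => y j) →
        T.card + ρ ≤ m + 1 := by
    rintro y ⟨hy0, hyG⟩ ⟨P, hP, E, c, hc, hcP⟩
    have hρ := le_finrank E P c hc hcP
    have h3 := hf2 y hy0 hyG (toE E) P (fun l => (onM_iff f l y _).1 (hP l)) (relMod E P)
      (fun c hc => hc)
    refine ⟨fun j0 T hT => ?_, fun T hT => ?_⟩
    · have h4 := h3.1 j0 T hT
      have h5 : T.card + Module.finrank E.O (relMod E P) ≤ m := h4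
      omega
    · have h4 := h3.2 T hT
      have h5 : T.card + Module.finrank E.O (relMod E P) ≤ m + 1 := h4
      omega
  refine ⟨fun y hy hM => (hkey y hy hM).1, ?_⟩
  intro W p hW hcl hprime hp
  obtain ⟨w, hwW, hpw, T, hT, hdimW⟩ :=
    Pool.Agent.W282.LF.generic_dim_open ℚ W hprime hcl p hp
  obtain ⟨hwB, hwS⟩ := hW w hwW hpw
  have h3 := (hkey w hwB hwS).2 T hT
  calc zdim W + (ρ : Cardinal) ≤ (T.card : Cardinal) + (ρ : Cardinal) := by gcongr
    _ = ((T.card + ρ : ℕ) : Cardinal) := by push_cast; rfl
    _ ≤ ((m + 1 : ℕ) : Cardinal) := by exact_mod_cast h3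

end Pool.Agent.Results.MP_28d749_ag.RandomMultisections
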