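import Pool.Agent.TH971.SR.R8
import Pool.Agent.W282.LF.Top

/-!
# MP_28d749_ag: Pink's conjecture in abelian schemes for a positive proportion of all pull-backs under
rational maps `𝒜 ⇢ ℂ^r`, in particular for complete intersections

`B ⊆ P^N` is an arbitrary projective variety over the algebraic numbers of dimension at most `m`
(`DimLE`): the set of zeros of a family `G` of forms with algebraic coefficients. Let
`E_i : y² = x³ + a_i x + b_i`, `i = 1, …, n`, be arbitrary (fixed) families of elliptic curves over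
`B`, where `a_i` and `b_i` are forms of degree `4 e_i` and `6 e_i` (`e_i = 0` is allowed: then `E_i`
is a constant family), let `S` be the open subset of `B` where all `E_i` are smooth, and
`𝒜 = E_1^(q_1) × … × E_n^(q_n) × G_m^k` (fibre products over `S`), a semiabelian scheme over `S` of
relative dimension `g = q_1 + … + q_n + k`, and an abelian scheme if `k = 0`; the case of a power
`𝒜 = E^q` of one elliptic scheme is `n = 1`, `k = 0`. A point of `𝒜` consists of a point `y` of `S`,
points `P_{i,l}` of `E_i(y)` and numbers `u_w ≠ 0` (`Amb`). The coordinates on the fibres are the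
numbers `x(P_{i,l})` (in `P¹`) and `u_w`.

A vector `c` of integers gives `r` numerators `N_j` and `r` denominators `M_j`, forms of multidegree
`D` in all the coordinates of the fibres, `N_j = ∑_f c(j, 0, f)(y) x^f` and
`M_j = ∑_f c(j, 1, f)(y) x^f` with all the exponent vectors `f ≤ D`, where the coefficient of `x^f` is
an arbitrary form with integral coefficients in `y_0, …, y_N`, of degree
`d_j + ∑_{i,l} 2 e_i (D_{i,l} - f_{i,l})` (`deg`; as `x` is a section of a line bundle of degree
`2 e_i`, these are the coefficients for which `N_j` and `M_j` are homogeneous), and the rational map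
`F_c = (N_1 / M_1, …, N_r / M_r)` from `𝒜` to `ℂ^r`. We suppose that `D ≥ 1`, and that `D ≥ q_i` for
the coordinates which belong to `E_i`.

Let `V` be any irreducible subvariety of `ℂ^r` over the complex numbers, of any dimension `d`. Let
`X_c = pullback G c V` be the closed set of all points of `𝒜` at which the multihomogenizations of the
polynomials in the ideal of `V` vanish, evaluated at `N_j, M_j`. It contains the closure of the
pull-back `F_c⁻¹(V)`. For `V = {0}` it is the complete intersection `N_1 = … = N_r = 0` in `𝒜`.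
Every component of `X_c` has dimension at least `m + g - (r - d)`, if all components of `B` have
dimension `m` (outside of the common zeros of `N_j` and `M_j` for some `j`, and everywhere for
`V = {0}`).

Theorem: for a positive proportion of the vectors `c` (in every box, in every residue class) `X_c` has
no unlikely intersections with algebraic subgroups of the fibres of `𝒜`: for every `ρ` every
irreducible closed subset of the intersection of `X_c` with the union `𝒜^[≥ ρ]` of the algebraic
subgroups of codimension at least `ρ` of all fibres of `𝒜` has dimension at most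
`m + g - (r - d) - ρ`. For `ρ = 0` it follows that `X_c` has the expected dimension
`m + g - (r - d)`, if it is not empty, and for `ρ > m + g - (r - d) = dim X_c` that it does not meet
`𝒜^[≥ ρ]`: the set `X_c ∩ 𝒜^[> dim X_c]` is empty.

An algebraic subgroup `H` of codimension `ρ` of a power `E^q` of an elliptic curve is given, up to
finite index, by a module of rank `ρ` of relations `∑_l c_l P_l = 0` over the ring of endomorphisms
of the curve (`EndRing`: `ℤ`, or an order in an imaginary quadratic field if `E` has complex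
multiplication), see `InSubgroup`. `InSpecial` is about the products of algebraic subgroups of the
`E_i(y)^(q_i)` and of `G_m^k`. For `𝒜 = E^q` (`n = 1`, `k = 0`) these are all the algebraic subgroups
of all fibres.
-/

namespace Pool.Agent.Results.MP_28d749_ag.RandomSubvarieties

open MvPolynomial Pool.Agent.W282.ZP

/-- The value at `y` of the form of degree `d` with integral coefficients `c u`, the monomials of
degree `d` in `y_0, …, y_N` being indexed by the multisets `u` of size `d`. -/
noncomputable def value {N d : ℕ} (c : Sym (Fin (N + 1)) d → ℤ) (y : Fin (N + 1) → ℂ) : ℂ :=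
  ∑ u : Sym (Fin (N + 1)) d, (c u : ℂ) * ((u : Multiset (Fin (N + 1))).map y).prod

/-- `y` is a vector of homogeneous coordinates of a point of the projective algebraic set `B`
defined by the forms `G k`. -/
def OnB {N : ℕ} {κ : Type*} (G : κ → MvPolynomial (Fin (N + 1)) ℂ) (y : Fin (N + 1) → ℂ) : Prop :=
  y ≠ 0 ∧ ∀ k, eval y (G k) = 0

/-- The projective algebraic set defined by the forms `G k` has dimension at most `m`: it does not
meet some linear subspace defined by `m + 1` linear forms. -/
def DimLE {N : ℕ} {κ : Type*} (G : κ → MvPolynomial (Fin (N + 1)) ℂ) (m : ℕ) : Prop :=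
  ∃ t : Fin (m + 1) → Fin (N + 1) → ℂ, ∀ y, OnB G y → ∃ b, ∑ j, t b j * y j ≠ 0

/-- The curve `y² = x³ + a x + b` over the complex numbers. -/
abbrev curve (a b : ℂ) : WeierstrassCurve.Affine ℂ := ⟨0, 0, 0, a, b⟩

/-- The `x`-coordinate of a point of the curve (`0` for the origin). -/
def xCoord {a b : ℂ} : (curve a b).Point → ℂ
  | .zero => 0
  | .some x _ _ => x

/-- The map `φ` of the points of the curve `y² = x³ + a x + b` to itself is given on the
`x`-coordinates by a rational function `u / w` with `u(x) / w(x) ~ x / c²` for `x → ∞`. -/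
def ActsByRational {a b : ℂ} (c : ℂ) (φ : (curve a b).Point → (curve a b).Point) : Prop :=
  ∃ u w : Polynomial ℂ, w ≠ 0 ∧ u.natDegree = w.natDegree + 1 ∧
    w.leadingCoeff = c ^ 2 * u.leadingCoeff ∧
    ∀ P : (curve a b).Point, P ≠ 0 → w.eval (xCoord P) ≠ 0 →
      φ P ≠ 0 ∧ xCoord (φ P) * w.eval (xCoord P) = u.eval (xCoord P)

/-- A ring of endomorphisms of the curve `y² = x³ + a x + b`: a ring `O` of complex numbers which
acts on the group of points. For an endomorphism which is multiplication by `λ` on the tangent space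
at the origin the number `λ` is an integer or an imaginary quadratic integer, in particular it
satisfies an equation `λ² - T λ + N = 0` with integers `T, N`, and if it is not an integer, the
`x`-coordinate of the image of a point is a rational function `u / w` of the `x`-coordinate of the
point, with `u(x) / w(x) ~ x / λ²` for `x → ∞`. (The integers in `O` act by multiplication, as `act`
is a homomorphism of rings.) -/
structure EndRing (a b : ℂ) where
  /-- the ring -/
  O : Subring ℂ
  /-- its action on the points -/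
  act : O →+* AddMonoid.End (curve a b).Point
  quad : ∀ c : O, ∃ T N : ℤ, (c : ℂ) ^ 2 - T * c + N = 0
  rat : ∀ c : O, (∀ n : ℤ, (c : ℂ) ≠ n) → ActsByRational c (act c)

/-- The linear combination `∑ c_l (P_l)` of points with endomorphisms `c_l` as coefficients. -/
noncomputable def EndRing.comb {a b : ℂ} (E : EndRing a b) {q : ℕ} (c : Fin q → E.O)
    (P : Fin q → (curve a b).Point) : (curve a b).Point :=
  ∑ l, E.act (c l) (P l)

/-- The coefficients `c_1, …, c_q` are a relation between the points `P_1, …, P_q` up to torsion: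
the point `∑ c_l (P_l)` is a torsion point. -/
def EndRing.Relation {a b : ℂ} (E : EndRing a b) {q : ℕ} (c : Fin q → E.O)
    (P : Fin q → (curve a b).Point) : Prop :=
  ∃ t : ℕ, 0 < t ∧ t • E.comb c P = 0

/-- The point `(P_1, …, P_q)` of the `q`-th power of the curve is in an algebraic subgroup of
codimension at least `ρ`: the module of the relations between the `P_l` over some ring of
endomorphisms of the curve has rank at least `ρ`, it has `ρ` linearly independent elements. -/
def InSubgroup {a b : ℂ} {q : ℕ} (P : Fin q → (curve a b).Point) (ρ : ℕ) : Prop :=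
  ∃ (E : EndRing a b) (c : Fin ρ → Fin q → E.O),
    LinearIndependent ℂ (fun i l => (c i l : ℂ)) ∧ ∀ i, E.Relation (c i) P

/-- The point `(u_1, …, u_k)` of `G_m^k` is in an algebraic subgroup of codimension at least `ρ`: there
are `ρ` linearly independent vectors `a` such that `∏ u_w ^ (a_w)` is a root of unity. -/
def InSubtorus {k : ℕ} (u : Fin k → ℂ) (ρ : ℕ) : Prop :=
  ∃ a : Fin ρ → Fin k → ℤ, LinearIndependent ℤ a ∧
    ∀ i, ∃ t : ℕ, 0 < t ∧ (∏ w, u w ^ a i w) ^ t = 1

/-- The complex points of `𝒜 = E_1^(q_1) × … × E_n^(q_n) × G_m^k` over `P^N`, with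
`E_i : y² = x³ + a_i x + b_i`. -/
structure Amb {N n : ℕ} (a b : Fin n → MvPolynomial (Fin (N + 1)) ℂ) (q : Fin n → ℕ) (k : ℕ) where
  /-- homogeneous coordinates of the point of the base -/
  y : Fin (N + 1) → ℂ
  /-- the points `P_{i,l}` of the fibre of `E_i` -/
  P : ∀ i, Fin (q i) → (curve (eval y (a i)) (eval y (b i))).Point
  /-- the coordinates `u_w` in `G_m^k` -/
  u : Fin k → ℂ
  ne_zero : ∀ w, u w ≠ 0

/-- The index set of the coordinates `x(P_{i,l})` and `u_w`. -/
abbrev Ind {n : ℕ} (q : Fin n → ℕ) (k : ℕ) : Type := ((i : Fin n) × Fin (q i)) ⊕ Fin k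

variable {N n : ℕ} {q : Fin n → ℕ} {k : ℕ} {a b : Fin n → MvPolynomial (Fin (N + 1)) ℂ}

/-- The coordinates `y_0, …, y_N`, `x(P_{i,l})` (`0` if `P_{i,l}` is the origin) and `u_w`. -/
noncomputable def Amb.coord (z : Amb a b q k) : Fin (N + 1) ⊕ Ind q k → ℂ :=
  Sum.elim z.y (Sum.elim (fun j => xCoord (z.P j.1 j.2)) z.u)

open Classical in
/-- The coordinates on the fibre as points of the projective line, with homogeneous coordinates
`(x : 1)`, and `(1 : 0)` for the origin of `E_i`. -/
noncomputable def Amb.homog (z : Amb a b q k) : Ind q k → ℂ × ℂ :=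
  Sum.elim (fun j => if z.P j.1 j.2 = 0 then (1, 0) else (xCoord (z.P j.1 j.2), 1))
    (fun w => (z.u w, 1))

/-- The weights of the coordinates: `2 e_i` for `x(P_{i,l})`, and `0` for `u_w`. -/
def weight (e : Fin n → ℕ) : Ind q k → ℕ := Sum.elim (fun j => 2 * e j.1) (fun _ => 0)

/-- The degree `d + ∑_{i,l} 2 e_i (D_{i,l} - f_{i,l})` of the coefficient of the monomial `x^f`. -/
def deg (e : Fin n → ℕ) (D : Ind q k → ℕ) (d : ℕ) (f : (i : Ind q k) → Fin (D i + 1)) : ℕ :=
  d + ∑ i, weight e i * (D i - (f i : ℕ))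

/-- The index set of the integral coefficients of the forms `c(j, s, f)`, for `j = 1, …, r`,
`s = 0` (numerator), `1` (denominator), and all exponent vectors `f ≤ D`. -/
abbrev Idx (N r : ℕ) (e : Fin n → ℕ) (D : Ind q k → ℕ) (d : Fin r → ℕ) : Type :=
  Σ x : Fin r × Fin 2 × ((i : Ind q k) → Fin (D i + 1)), Sym (Fin (N + 1)) (deg e D (d x.1) x.2.2)

/-- The coefficient vectors of the rational maps from `𝒜` to `ℂ^r`. -/
abbrev Coeffs (N r : ℕ) (e : Fin n → ℕ) (D : Ind q k → ℕ) (d : Fin r → ℕ) : Type :=
  Idx N r e D d → ℤ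

/-- The value of the numerator (`s = 0`) or denominator (`s = 1`) of the `j`-th component at the
point `y` of the base and the point with homogeneous coordinates `((h i).1 : (h i).2)` of the
fibre. -/
noncomputable def form {r : ℕ} {e : Fin n → ℕ} {D : Ind q k → ℕ} {d : Fin r → ℕ}
    (c : Coeffs N r e D d) (s : Fin 2) (y : Fin (N + 1) → ℂ) (h : Ind q k → ℂ × ℂ)
    (j : Fin r) : ℂ :=
  ∑ f : (i : Ind q k) → Fin (D i + 1), value (fun u => c ⟨(j, s, f), u⟩) y *
    ∏ i, ((h i).1 ^ (f i : ℕ) * (h i).2 ^ (D i - (f i : ℕ)))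

/-- The pull-back of `V` to `𝒜`: the points over `B` at which the multihomogenizations of all the
polynomials `g` in the ideal of `V` vanish, evaluated at the values of the numerators and
denominators. -/
def pullback {κ : Type*} (G : κ → MvPolynomial (Fin (N + 1)) ℂ) {r : ℕ} {e : Fin n → ℕ}
    {D : Ind q k → ℕ} {d : Fin r → ℕ} (c : Coeffs N r e D d) (V : Set (Fin r → ℂ)) :
    Set (Amb a b q k) :=
  {z | OnB G z.y ∧ ∀ g ∈ idealOf V, ∑ v ∈ g.support, g.coeff v *
    ∏ j, (form c 0 z.y z.homog j ^ (v j) * form c 1 z.y z.homog j ^ (g.degreeOf j - v j)) = 0}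

/-- The point `z` is in an algebraic subgroup of the fibre of `𝒜` of codimension at least `ρ` (the
product of algebraic subgroups of the powers of the `E_i` and of `G_m^k`). -/
def InSpecial (z : Amb a b q k) (ρ : ℕ) : Prop :=
  ∃ (r : Fin n → ℕ) (s : ℕ), ρ ≤ ∑ i, r i + s ∧ (∀ i, InSubgroup (z.P i) (r i)) ∧
    InSubtorus z.u s

/-- For all `ρ` every irreducible closed subset of `X ∩ 𝒜^[≥ ρ]` has dimension at most
`m + g + d - r - ρ`, where `g = q_1 + … + q_n + k`. More precisely, for `j₀ = 0, …, N` let `W` be an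
irreducible closed set of vectors, such that all vectors in `W` outside of some hypersurface
`p = 0`, which does not contain `W`, are the vectors of coordinates (numbered in any way) of points
of `X ∩ 𝒜^[≥ ρ]` over the affine part `y_{j₀} = 1` of `P^N`. Then `dim W + ρ + r ≤ m + g + d`. -/
def NoUnlikely (X : Set (Amb a b q k)) (m r : ℕ) (d : Cardinal) : Prop :=
  ∀ (j₀ : Fin (N + 1)) (ρ s : ℕ) (e : Fin s ≃ Fin (N + 1) ⊕ Ind q k) (W : Set (Fin s → ℂ))
    (p : MvPolynomial (Fin s) ℂ),
    (∀ w ∈ W, eval w p ≠ 0 →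
      ∃ z ∈ X, z.y j₀ = 1 ∧ InSpecial z ρ ∧ ∀ i, w i = z.coord (e i)) →
    zcl W ⊆ W → (idealOf W).IsPrime → p ∉ idealOf W →
    zdim W + (ρ : Cardinal) + (r : Cardinal) ≤ (m : Cardinal) + ((∑ i, q i + k : ℕ) : Cardinal) + d

theorem xCoord_eq {a b : ℂ} (P : (curve a b).Point) :
    xCoord P = Pool.Agent.W466.EP.xx (A := a) (B := b) P := by
  rcases P with _ | ⟨x, y, h⟩
  · rfl
  · rfl

/-- the ring of endomorphisms as in the helper files -/
def toE {a b : ℂ} (E : EndRing a b) : Pool.Agent.TH971.RF.EndRing a b where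
  O := E.O
  act := E.act
  quad := E.quad
  rat := by
    intro c hc
    obtain ⟨u, w, h1, h2, h3, h4⟩ := E.rat c hc
    refine ⟨u, w, h1, h2, h3, fun P hP hw => ?_⟩
    have e1 : xCoord (a := a) (b := b) P = Pool.Agent.W466.EP.xx (A := a) (B := b) P := xCoord_eq P
    have hw' : w.eval (xCoord (a := a) (b := b) P) ≠ 0 := by rw [e1]; exact hw
    have h5 := h4 P hP hw'
    have e2 : xCoord (a := a) (b := b) (E.act c P) =
      Pool.Agent.W466.EP.xx (A := a) (B := b) (E.act c P) := xCoord_eq _
    rw [e1, e2] at h5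
    exact h5

/-- the module of the relations -/
def relMod {a b : ℂ} (E : EndRing a b) {q : ℕ} (P : Fin q → (curve a b).Point) :
    Submodule E.O (Fin q → E.O) where
  carrier := {c | E.Relation c P}
  zero_mem' := ⟨1, one_pos, by simp [EndRing.comb]⟩
  add_mem' := by
    rintro c c' ⟨t, ht, h⟩ ⟨t', ht', h'⟩
    refine ⟨t * t', Nat.mul_pos ht ht', ?_⟩
    have e1 : E.comb (c + c') P = E.comb c P + E.comb c' P := by
      unfold EndRing.comb
      rw [← Finset.sum_add_distrib]
      refine Finset.sum_congr rfl fun l _ => ?_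
      rw [Pi.add_apply, map_add]
      rfl
    rw [e1, nsmul_add, mul_nsmul, h, mul_comm t t', mul_nsmul, h', nsmul_zero, nsmul_zero, add_zero]
  smul_mem' := by
    rintro r c ⟨t, ht, h⟩
    refine ⟨t, ht, ?_⟩
    have e1 : E.comb (r • c) P = E.act r (E.comb c P) := by
      simp [EndRing.comb, map_sum]
    rw [e1, ← map_nsmul, h, map_zero]

theorem le_finrank {a b : ℂ} (E : EndRing a b) {q ρ : ℕ} (P : Fin q → (curve a b).Point)
    (c : Fin ρ → Fin q → E.O) (hc : LinearIndependent ℂ (fun i l => (c i l : ℂ)))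
    (h : ∀ i, E.Relation (c i) P) : ρ ≤ Module.finrank E.O (relMod E P) := by
  have h1 : LinearIndependent E.O (fun i => (⟨c i, h i⟩ : relMod E P)) := by
    rw [Fintype.linearIndependent_iff] at hc ⊢
    intro g hg i
    have h2 : ∑ i, (g i : ℂ) • (fun l => (c i l : ℂ)) = 0 := by
      funext l
      have h3 := congrArg (fun v : relMod E P => (((v : Fin q → E.O) l : E.O) : ℂ)) hg
      simpa [Finset.sum_apply] using h3
    exact_mod_cast hc _ h2 i
  have h2 := h1.cardinal_le_rank
  have h3 : Module.rank E.O (relMod E P) < Cardinal.aleph0 := by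
    refine (Submodule.rank_le _).trans_lt ?_
    rw [rank_fun']
    exact Cardinal.natCast_lt_aleph0
  have h4 := Cardinal.toNat_le_toNat h2 h3
  simpa [Module.finrank] using h4

/-- the group of the multiplicative relations -/
def relTor {k : ℕ} (u : Fin k → ℂ) (hu : ∀ w, u w ≠ 0) : Submodule ℤ (Fin k → ℤ) where
  carrier := {a | ∃ t : ℕ, 0 < t ∧ (∏ w, u w ^ a w) ^ t = 1}
  zero_mem' := ⟨1, one_pos, by simp⟩
  add_mem' := by
    rintro a a' ⟨t, ht, h⟩ ⟨t', ht', h'⟩
    refine ⟨t * t', Nat.mul_pos ht ht', ?_⟩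
    have e1 : ∏ w, u w ^ (a + a') w = (∏ w, u w ^ a w) * ∏ w, u w ^ a' w := by
      rw [← Finset.prod_mul_distrib]
      exact Finset.prod_congr rfl fun w _ => zpow_add₀ (hu w) _ _
    rw [e1, mul_pow, pow_mul, h, mul_comm t t', pow_mul, h', one_pow, one_pow, one_mul]
  smul_mem' := by
    rintro z a ⟨t, ht, h⟩
    refine ⟨t, ht, ?_⟩
    have e1 : ∏ w, u w ^ (z • a) w = (∏ w, u w ^ a w) ^ z := by
      rw [← Finset.prod_zpow]
      refine Finset.prod_congr rfl fun w _ => ?_
      rw [Pi.smul_apply, smul_eq_mul, mul_comm, zpow_mul]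
    rw [e1, ← zpow_natCast, ← zpow_mul, mul_comm z, zpow_mul, zpow_natCast, h, one_zpow]

theorem le_finrank_tor {k ρ : ℕ} (u : Fin k → ℂ) (hu : ∀ w, u w ≠ 0) (a : Fin ρ → Fin k → ℤ)
    (ha : LinearIndependent ℤ a) (h : ∀ i, ∃ t : ℕ, 0 < t ∧ (∏ w, u w ^ a i w) ^ t = 1) :
    ρ ≤ Module.finrank ℤ (relTor u hu) := by
  have h1 : LinearIndependent ℤ (fun i => (⟨a i, h i⟩ : relTor u hu)) :=
    LinearIndependent.of_comp (relTor u hu).subtype ha
  have h2 := h1.fintype_card_le_finrank
  rwa [Fintype.card_fin] at h2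

/-- Let `𝒜 = E_1^(q_1) × … × E_n^(q_n) × G_m^k` with arbitrary elliptic schemes `E_i` over any
projective variety `B` of dimension at most `m` over the algebraic numbers. For every irreducible
`V ⊂ ℂ^r`, every multidegree `D ≥ 1` with `D_{i,l} ≥ q_i`, in every residue class modulo any `Q₀` and
in every box `H u + [-ε H, ε H]` there is a positive proportion of integer vectors `c` for which the
pull-back of `V` to `𝒜` has no unlikely intersections with the algebraic subgroups of the fibres. -/
theorem result {κ : Type} {N n : ℕ} (m r k : ℕ) (q : Fin n → ℕ)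
    (G : κ → MvPolynomial (Fin (N + 1)) ℂ) (hhom : ∀ k, ∃ e, (G k).IsHomogeneous e)
    (halg : ∀ k s, IsAlgebraic ℚ ((G k).coeff s)) (hdim : DimLE G m)
    (e : Fin n → ℕ) (a b : Fin n → MvPolynomial (Fin (N + 1)) ℂ)
    (ha : ∀ i, (a i).IsHomogeneous (4 * e i)) (hb : ∀ i, (b i).IsHomogeneous (6 * e i))
    (V : Set (Fin r → ℂ)) (hV : (idealOf V).IsPrime) (D : Ind q k → ℕ) (hD : ∀ i, 0 < D i)
    (hDq : ∀ j : (i : Fin n) × Fin (q i), q j.1 ≤ D (Sum.inl j)) (d : Fin r → ℕ)
    (Q₀ : ℕ) (hQ₀ : 0 < Q₀) (c₀ : Coeffs N r e D d) (u : Idx N r e D d → ℝ) (ε : ℝ) (hε : 0 < ε) :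
    ∃ δ : ℝ, 0 < δ ∧ ∀ᶠ H : ℕ in Filter.atTop,
      δ * (H : ℝ) ^ (Fintype.card (Idx N r e D d)) ≤
        Nat.card {c : Coeffs N r e D d // (∀ i, |(c i : ℝ) - H * u i| ≤ ε * H) ∧
          (∀ i, (Q₀ : ℤ) ∣ c i - c₀ i) ∧
          NoUnlikely (a := a) (b := b) (pullback G c V) m r (zdim V)} := by
  classical
  have hfin : Algebra.trdeg ℂ (MvPolynomial (Fin r) ℂ ⧸ idealOf V) < Cardinal.aleph0 :=
    trdeg_lt_aleph0_of_finiteType
  obtain ⟨dV, hd⟩ := Cardinal.lt_aleph0.1 hfin
  have h1 : ∃ t : Fin (m + 1) → Fin (N + 1) → ℂ, ∀ y : Fin (N + 1) → ℂ,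
      (∀ k, eval y (G k) = 0) → (∀ b, ∑ j, t b j * y j = 0) → y = 0 := by
    obtain ⟨t, ht⟩ := hdim
    refine ⟨t, fun y hy hb => ?_⟩
    by_contra h0
    obtain ⟨b, hb'⟩ := ht y ⟨h0, hy⟩
    exact hb' (hb b)
  obtain ⟨K, Q, Gt, hK, hQ, hmain⟩ := Pool.Agent.TH971.SR.exists_classR (q := q) (k := k) e D hD
    hDq d (idealOf V) hd G hhom halg h1 a b ha hb Q₀ hQ₀ c₀
  refine pos_proportion' Q hQ Gt _ (fun c hc => ?_) u ε hε
  obtain ⟨hc0, hkey⟩ := hmain c hc
  refine ⟨hc0, ?_⟩
  intro j₀ ρ s σ W p hW hcl hprime hp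
  obtain ⟨w, hwW, hpw, T, hT, hdimW⟩ :=
    Pool.Agent.W282.LF.generic_dim_open K W hprime hcl p hp
  obtain ⟨z, ⟨hzB, hzX⟩, hzj, ⟨rr, s', hρ, hE, aa, haa, hau⟩, hwz⟩ := hW w hwW hpw
  choose E cc hcc hccP using hE
  have hho : Pool.Agent.TH971.SP.hco (A := fun i => eval z.y (a i)) (B := fun i => eval z.y (b i))
      z.P z.u = z.homog := by
    funext j
    rcases j with j | j
    · by_cases h0 : z.P j.1 j.2 = 0
      · exact (if_pos h0).trans (if_pos h0).symm
      · refine (if_neg h0).trans (Eq.trans ?_ (if_neg h0).symm)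
        rw [xCoord_eq]
    · rfl
  set T' : Finset (Fin (N + 1) ⊕ Ind q k) := T.map σ.toEmbedding with hT'
  have hTT : ∀ j, j ∈ T' → σ.symm j ∈ T := by
    intro j hj
    obtain ⟨t, ht, h⟩ := Finset.mem_map.1 hj
    rw [← h]
    simpa using ht
  let g : T'.toLeft ⊕ T'.toRight → T := Sum.elim
    (fun j => ⟨σ.symm (Sum.inl j), hTT _ (Finset.mem_toLeft.1 j.2)⟩)
    (fun j => ⟨σ.symm (Sum.inr j), hTT _ (Finset.mem_toRight.1 j.2)⟩)
  have hg : Function.Injective g := by
    rintro (x | x) (y | y) h
    · have h1 := congrArg Subtype.val h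
      have h2 := Sum.inl_injective (σ.symm.injective h1)
      rw [Subtype.ext h2]
    · have h1 := congrArg Subtype.val h
      have h2 := σ.symm.injective h1
      exact absurd h2 Sum.inl_ne_inr
    · have h1 := congrArg Subtype.val h
      have h2 := σ.symm.injective h1
      exact absurd h2 Sum.inr_ne_inl
    · have h1 := congrArg Subtype.val h
      have h2 := Sum.inr_injective (σ.symm.injective h1)
      rw [Subtype.ext h2]
  have h3 := hkey z.y j₀ hzj hzB.2 z.P z.u (by
      intro f hf
      rw [hho]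
      exact hzX f hf) (fun i => toE (E i)) (fun i => relMod (E i) (z.P i)) (fun i a ha => ha)
      (relTor z.u z.ne_zero) (fun a ha => ha) T'.toLeft T'.toRight (by
        have h5 := hT.comp g hg
        convert h5 using 1
        funext j
        rcases j with j | j
        · change z.y j = w (σ.symm (Sum.inl j))
          rw [hwz, Equiv.apply_symm_apply]
          rfl
        · change Pool.Agent.TH971.SP.co z.P z.u j = w (σ.symm (Sum.inr j))
          rw [hwz, Equiv.apply_symm_apply]
          obtain ⟨j, hj⟩ := j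
          rcases j with j | j
          · exact (xCoord_eq _).symm
          · rfl)
  have h4 : ∀ i, rr i ≤ Module.finrank (E i).O (relMod (E i) (z.P i)) := fun i =>
    le_finrank (E i) (z.P i) (cc i) (hcc i) (hccP i)
  have h5 := le_finrank_tor z.u z.ne_zero aa haa hau
  have h6 : ∑ i, rr i ≤ ∑ i, Module.finrank (E i).O (relMod (E i) (z.P i)) :=
    Finset.sum_le_sum fun i _ => h4 i
  have hcard : Fintype.card (Pool.Agent.TH971.SP.Ix q k) = ∑ i, q i + k := by simp
  have hT2 : T'.toLeft.card + T'.toRight.card = T.card := by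
    rw [Finset.card_toLeft_add_card_toRight, hT', Finset.card_map]
  have h7 : T.card + ∑ i, Module.finrank (E i).O (relMod (E i) (z.P i)) +
      Module.finrank ℤ (relTor z.u z.ne_zero) + r ≤ (∑ i, q i + k) + dV + m := by
    rw [← hT2, ← hcard]
    exact h3
  calc zdim W + (ρ : Cardinal) + (r : Cardinal)
      ≤ (T.card : Cardinal) + (ρ : Cardinal) + (r : Cardinal) := by gcongr
    _ = ((T.card + ρ + r : ℕ) : Cardinal) := by push_cast; rfl
    _ ≤ ((m + (∑ i, q i + k) + dV : ℕ) : Cardinal) := by
      have : T.card + ρ + r ≤ m + (∑ i, q i + k) + dV := by omega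
      exact_mod_cast this
    _ = (m : Cardinal) + ((∑ i, q i + k : ℕ) : Cardinal) + zdim V := by
      rw [zdim, hd]; push_cast; rfl

end Pool.Agent.Results.MP_28d749_ag.RandomSubvarieties
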